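import Pool.Agent.N206.CG.Stm2

/-!
Project CG, leaf NC: nontrivial normal subgroups do not commute (helper340 for helper206).
-/

namespace Pool.Agent.N340.CG

open Classical Pool.Agent.N206.CG

variable {L : Loc} (S : Sys L)

/-- the sections along some path of length `k` have nontrivial root -/
def Dp : ℕ → ∀ n : ℕ, S.D n → Prop
  | 0, n, d => S.root n d ≠ 1
  | k + 1, n, d => ∃ x, Dp k (n + 1) (S.sec n d x)

theorem Dp_one (k : ℕ) : ∀ n, ¬ Dp S k n 1 := by
  induction k with
  | zero =>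
    intro n h
    exact h (map_one _)
  | succ k ih =>
    rintro n ⟨x, h⟩
    rw [S.sec_one] at h
    exact ih _ h

theorem exists_Dp (n : ℕ) (d : S.D n) (hd : d ≠ 1) : ∃ k, Dp S k n d := by
  by_contra hcon
  push Not at hcon
  refine hd (S.faith (fun n => {d | ∀ k, ¬ Dp S k n d}) ?_ n d hcon)
  intro n d h
  refine ⟨?_, fun x k hk => h (k + 1) ⟨x, hk⟩⟩
  by_contra h1
  exact h 0 h1

theorem nontriv (n : ℕ) : ∃ g : S.D n, g ≠ 1 := by
  obtain ⟨x, _, y, _, hxy⟩ := L.X_two n
  obtain ⟨r, hr⟩ := S.exists_rt n x y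
  refine ⟨S.rt n r, fun h => hxy ?_⟩
  rw [h, map_one, Equiv.Perm.one_apply] at hr
  exact hr

theorem factA (h2 : S_Z S) (n : ℕ) (N M : Subgroup (S.D n)) (hN : ∀ d, S.root n d = 1 → d ∈ N)
    (hc : ∀ a ∈ N, ∀ b ∈ M, a * b = b * a) : M = ⊥ := by
  rw [Subgroup.eq_bot_iff_forall]
  intro m hm
  have key : ∀ x g, S.lam n (S.root n m x) (S.sec n m x * g * (S.sec n m x)⁻¹) = S.lam n x g := by
    intro x g
    rw [← S.conj_lam, ← hc _ (hN _ (S.root_lam n x g)) m hm, mul_inv_cancel_right]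
  have hroot : ∀ x, S.root n m x = x := by
    intro x
    by_contra hne
    obtain ⟨g, hg⟩ := nontriv S (n + 1)
    have h := congrArg (fun u => S.sec n u x) (key x g)
    simp only [S.sec_lam_self] at h
    rw [S.sec_lam_ne n _ _ _ (Ne.symm hne)] at h
    exact hg h.symm
  apply S.ext
  · rw [map_one]
    exact Equiv.ext hroot
  · intro x
    rw [S.sec_one]
    refine h2 (n + 1) _ fun g => ?_
    have h := key x g
    rw [hroot] at h
    have h3 := S.lam_inj n _ _ _ h
    rw [mul_inv_eq_iff_eq_mul] at h3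
    exact h3

/-- the sections at `x` of the elements of `N` -/
def secSub (n : ℕ) (x : L.E n) (N : Subgroup (S.D n)) (h : ∀ e ∈ N, S.root n e = 1) :
    Subgroup (S.D (n + 1)) where
  carrier := {f | ∃ e ∈ N, S.sec n e x = f}
  one_mem' := ⟨1, N.one_mem, S.sec_one n x⟩
  mul_mem' := by
    rintro _ _ ⟨e, he, rfl⟩ ⟨f, hf, rfl⟩
    refine ⟨e * f, N.mul_mem he hf, ?_⟩
    rw [S.sec_mul, h f hf, Equiv.Perm.one_apply]
  inv_mem' := by
    rintro _ ⟨e, he, rfl⟩
    refine ⟨e⁻¹, N.inv_mem he, ?_⟩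
    rw [S.sec_inv, h e he, inv_one, Equiv.Perm.one_apply]

theorem secSub_normal (n : ℕ) (x : L.E n) (N : Subgroup (S.D n)) (h : ∀ e ∈ N, S.root n e = 1)
    (hN : N.Normal) : (secSub S n x N h).Normal := by
  refine ⟨?_⟩
  rintro _ ⟨e, he, rfl⟩ g
  refine ⟨S.lam n x g * e * (S.lam n x g)⁻¹, hN.conj_mem e he _, ?_⟩
  rw [← S.lam_inv, S.sec_mul, S.sec_mul, S.root_lam, Equiv.Perm.one_apply, h e he,
    Equiv.Perm.one_apply, S.sec_lam_self, S.sec_lam_self]

theorem main (h1 : S_TOP S) (h2 : S_Z S) (k : ℕ) : ∀ (n : ℕ) (N M : Subgroup (S.D n)), N.Normal →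
    M.Normal → (∀ a ∈ N, ∀ b ∈ M, a * b = b * a) → M ≠ ⊥ → ∀ d ∈ N, ¬ Dp S k n d := by
  induction k with
  | zero =>
    intro n N M hN _ hc hM d hd hdp
    exact hM (factA S h2 n N M (h1 n N hN ⟨d, hd, hdp⟩) hc)
  | succ k ih =>
    intro n N M hN hM hc hM0 d hd hdp
    by_cases hNr : ∀ e ∈ N, S.root n e = 1
    · by_cases hMr : ∀ e ∈ M, S.root n e = 1
      · obtain ⟨x, hx⟩ := hdp
        refine ih (n + 1) (secSub S n x N hNr) (secSub S n x M hMr)
          (secSub_normal S n x N hNr hN) (secSub_normal S n x M hMr hM) ?_ ?_ _ ⟨d, hd, rfl⟩ hx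
        · rintro _ ⟨e, he, rfl⟩ _ ⟨f, hf, rfl⟩
          have h3 := congrArg (fun u => S.sec n u x) (hc e he f hf)
          simp only [S.sec_mul, hNr e he, hMr f hf, Equiv.Perm.one_apply] at h3
          exact h3
        · intro hbot
          apply hM0
          rw [Subgroup.eq_bot_iff_forall]
          intro m hm
          apply S.ext
          · rw [hMr m hm, map_one]
          · intro y
            rw [S.sec_one]
            obtain ⟨r, hr⟩ := S.exists_rt n y x
            have h4 : S.sec n m y ∈ secSub S n x M hMr := by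
              refine ⟨S.rt n r * m * (S.rt n r)⁻¹, hM.conj_mem m hm _, ?_⟩
              have h5 : S.root n (S.rt n r)⁻¹ x = y := by
                rw [map_inv, ← hr]; simp
              have h6 : S.sec n (S.rt n r)⁻¹ x = 1 := by
                rw [S.sec_inv, S.sec_rt, inv_one]
              rw [S.sec_mul, h5, h6, mul_one, S.sec_mul, S.sec_rt, one_mul]
            rw [hbot, Subgroup.mem_bot] at h4
            exact h4
      · push Not at hMr
        have h3 := factA S h2 n M N (h1 n M hM hMr) fun a ha b hb => (hc b hb a ha).symm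
        rw [h3, Subgroup.mem_bot] at hd
        rw [hd] at hdp
        exact Dp_one S (k + 1) n hdp
    · push Not at hNr
      exact hM0 (factA S h2 n N M (h1 n N hN hNr) hc)

theorem t_NC {L : Loc} (S : Sys L) (h1 : S_TOP S) (h2 : S_Z S) : S_NC S := by
  intro n N M hN hM hN0 hM0
  by_contra hcon
  push Not at hcon
  apply hN0
  rw [Subgroup.eq_bot_iff_forall]
  intro d hd
  by_contra hd1
  obtain ⟨k, hk⟩ := exists_Dp S n d hd1
  exact main S h1 h2 k n N M hN hM hcon hM0 d hd hk

end Pool.Agent.N340.CG
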